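import Pool.Agent.Helper94.UP.Sheet

/-! Row A1. -/

open scoped ZeroAtInfty ContDiff NNReal
open Set Filter Topology MeasureTheory

namespace Pool.Agent.Helper94.UP

open Pool.Agent.Helper94.UF Pool.Agent.Helper94.SR

theorem stA1b.{u, v} (h1 : ST_HT.{u, v}) (h2 : ST_HC.{u, v}) (h3 : ST_SL.{u, v}) :
    ST_A1.{u, v} := by
  intro k X _ _ Γ hk K
  have hc := K.c0
  have hL := K.L0
  refine ⟨K.L / K.c, div_pos hL hc, fun f Λ hΛ hf hlip ε hε => ?_⟩
  have hR : 0 ≤ Λ / K.c := div_nonneg hΛ hc.le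
  set R := Λ / K.c with hRdef
  have hδ : 0 < ε / (R + 1) := by positivity
  set δ := ε / (R + 1) with hδdef
  have hRδ : R * δ ≤ ε := by
    rw [hδdef, mul_div_assoc', div_le_iff₀ (by positivity)]
    nlinarith
  obtain ⟨ht, htl⟩ := h1 K f R δ hR hδ (fun x => (hf x).1)
  obtain ⟨s1, s2⟩ := h3 K (Hf K f R δ) R δ hδ hR ht htl
  refine ⟨sm K hδ (Hf K f R δ), sm_contDiff K hδ hk ht, fun x y => ?_, fun x => ?_⟩
  · refine (s1 x y).trans_eq ?_
    rw [hRdef]; ring
  · have a1 := s2 x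
    have a2 := h2 K f Λ δ hΛ hδ hf hlip x
    rw [← hRdef] at a2
    have a3 : Real.exp (-2) ≤ 1 / 2 := by
      rw [Real.exp_neg, one_div]
      apply inv_anti₀ (by norm_num)
      have := Real.add_one_le_exp (2 : ℝ)
      linarith
    have a4 : 0 ≤ R * δ := by positivity
    have a5 : R * (δ * Real.exp (-2)) ≤ R * δ * (1 / 2) := by
      rw [← mul_assoc]
      exact mul_le_mul_of_nonneg_left a3 a4
    have a6 := abs_sub_le (sm K hδ (Hf K f R δ) x) (Hf K f R δ (K.Φ x)) (f x)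
    have a7 : R * (δ / 16) = R * δ * (1 / 16) := by ring
    rw [a7] at a1
    linarith

end Pool.Agent.Helper94.UP
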